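import Pool.Agent.Z85.LS.Correct
import Pool.Agent.Z85.LS.Gauss

/-!
# MP_9b7f10_lc: random linear systems in `O(n² log² (n / ε))` exact real operations

The model of computation (`Computes`) is in `Pool.Agent.Z85.LS.Model`; the law of a random matrix
with independent entries (`law`) and the laws with two values (`coin`) are in
`Pool.Agent.Z85.LS.Law`; the list of the rows of a matrix (`rows`) is in `Pool.Agent.Z85.LS.SemMat`.

The algorithm.  Outside an event of small probability the entries of the matrix `A` are at most
`n²` and those of its inverse at most `n⁴`.  Round `A` to multiples of `n^(-O(1))` and compute an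
approximate inverse `X` with `‖1 - A X‖ ≤ 4 / 5` by `O(log n)` steps `X ↦ 2 X - X (A X)` of the
iteration of Newton and Schulz, started at `Aᵀ / ∑ A_ij²`.  All matrices in the iteration are
rounded to multiples of `n^(-O(1))`, so that a row of a matrix can be packed into one real number
(with `O(n log n)` binary digits), and a product of two matrices needs only `n²` multiplications of
such real numbers, followed by the extraction of the `n²` entries, bit by bit, with `O(log n)`
comparisons for each entry.  Then `O(log (1 / ε))` rounds of iterative refinement with the exact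
matrix `A` give the accuracy `ε`.

So the result depends on the unit cost of an exact operation on real numbers with many digits, as
in the model of the problem.  It says nothing about the number of bit operations, or about
algorithms in finite precision.
-/

open MeasureTheory ProbabilityTheory Filter Topology
open scoped Matrix
open Pool.Agent.Z85.LS

namespace Pool.Agent.Results.MP_9b7f10_lc.RealRamSolver

/-- The three laws of an entry: standard Gaussian, Rademacher (uniform on `{-1, 1}`), and Bernoulli
(uniform on `{0, 1}`). -/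
def IsEnsemble (μ : Measure ℝ) : Prop :=
  μ = gaussianReal 0 1 ∨ μ = coin (-1) 1 ∨ μ = coin 0 1

/-- The program `solve`, with at most `cost` operations, solves `A x = b` to accuracy `ε`, that is
`‖A x - b‖₂ ≤ ε ‖b‖₂`, for all matrices `A` in the sets `E n`, all `b` and all `ε` in `(0, 1)`, and
the number of operations is at most `bound n ε`. -/
def Solves (solve : ℝ × List (List ℝ) × List ℝ → List ℝ)
    (cost : ℝ × List (List ℝ) × List ℝ → ℕ) (E : (n : ℕ) → Set (Fin n → Fin n → ℝ))
    (bound : ℕ → ℝ → ℝ) : Prop :=
  Computes solve cost ∧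
    ∀ n, ∀ A ∈ E n, ∀ (b : Fin n → ℝ) (ε : ℝ), 0 < ε → ε < 1 →
      ∃ x : Fin n → ℝ, solve (ε, rows (Matrix.of A), List.ofFn b) = List.ofFn x ∧
        √(∑ i, ((Matrix.of A *ᵥ x) i - b i) ^ 2) ≤ ε * √(∑ i, b i ^ 2) ∧
        (cost (ε, rows (Matrix.of A), List.ofFn b) : ℝ) ≤ bound n ε

/-- The events `E n` have probabilities tending to one for matrices with independent entries with
law `μ`. -/
def Likely (μ : Measure ℝ) (E : (n : ℕ) → Set (Fin n → Fin n → ℝ)) : Prop :=
  (∀ n, MeasurableSet (E n)) ∧ Tendsto (fun n => law μ n (E n)) atTop (𝓝 1)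

/-- The statement of the problem for the law `μ` of the entries and the exponent `ω`. -/
def Question (μ : Measure ℝ) (ω : ℝ) : Prop :=
  ∃ (δ C : ℝ) (k : ℕ) (E : (n : ℕ) → Set (Fin n → Fin n → ℝ))
    (solve : ℝ × List (List ℝ) × List ℝ → List ℝ) (cost : ℝ × List (List ℝ) × List ℝ → ℕ),
    0 < δ ∧ Likely μ E ∧
      Solves solve cost E (fun n ε => C * (n : ℝ) ^ (ω - δ) * Real.log (n / ε) ^ k)

/-- There is one program which, for random matrices of each of the three ensembles, with
probability tending to one as `n → ∞` solves all systems with this matrix, for all right-hand sides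
and all accuracies `ε` in `(0, 1)`, with at most `C n² log² (n / ε)` operations.

In particular, the answer to the question is positive for every exponent `ω > 2`. -/
theorem result :
    (∃ (solve : ℝ × List (List ℝ) × List ℝ → List ℝ) (cost : ℝ × List (List ℝ) × List ℝ → ℕ)
      (E : (n : ℕ) → Set (Fin n → Fin n → ℝ)) (C : ℝ), (∀ μ, IsEnsemble μ → Likely μ E) ∧
      Solves solve cost E (fun n ε => C * (n : ℝ) ^ 2 * Real.log (n / ε) ^ 2)) ∧
    ∀ μ, IsEnsemble μ → ∀ ω : ℝ, 2 < ω → Question μ ω := by
  have h : ∃ (solve : ℝ × List (List ℝ) × List ℝ → List ℝ)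
      (cost : ℝ × List (List ℝ) × List ℝ → ℕ)
      (E : (n : ℕ) → Set (Fin n → Fin n → ℝ)) (C : ℝ), (∀ μ, IsEnsemble μ → Likely μ E) ∧
      Solves solve cost E (fun n ε => C * (n : ℝ) ^ 2 * Real.log (n / ε) ^ 2) := by
    obtain ⟨cost, C, h1, -, h2⟩ := solve_main
    refine ⟨solve, cost, E, C, ?_, h1, ?_⟩
    · rintro μ (rfl | rfl | rfl)
      · exact ⟨measurableSet_E, gauss_tendsto⟩
      · refine ⟨measurableSet_E, ?_⟩
        exact coin_tendsto (fun b => if b then 1 else -1) (by norm_num)
          (fun b => by cases b <;> norm_num)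
      · refine ⟨measurableSet_E, ?_⟩
        exact coin_tendsto (fun b => if b then 1 else 0) (by norm_num)
          (fun b => by cases b <;> norm_num)
    · intro n A hA b ε h0 hε
      obtain ⟨B, h3, h4⟩ := E_inverse hA
      obtain ⟨x, h5, h6, h7⟩ := h2 n hA.1 (Matrix.of A) B hA.2.1 h4 h3 b ε h0 hε
      refine ⟨x, h5, ?_, h7⟩
      rw [nrm_eq, nrm_eq] at h6
      exact h6
  refine ⟨h, fun μ hμ ω hω => ?_⟩
  obtain ⟨solve, cost, E, C, h1, h2, h3⟩ := h
  refine ⟨ω - 2, C, 2, E, solve, cost, by linarith, h1 μ hμ, h2, ?_⟩
  intro n A hA b ε h0 hε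
  obtain ⟨x, h4, h5, h6⟩ := h3 n A hA b ε h0 hε
  refine ⟨x, h4, h5, h6.trans (le_of_eq ?_)⟩
  simp only
  rw [sub_sub_cancel, Real.rpow_two]

end Pool.Agent.Results.MP_9b7f10_lc.RealRamSolver
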